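import Pool.Agent.Helper1.KF.MS
import Pool.Agent.Helper60.KC.ClassBound

/-!
# F2: the number of cells with a large sum over one class of zeros
-/

set_option autoImplicit false
open Filter Topology
open scoped Classical

namespace Pool.Agent.Helper1.KF

open Pool.Agent.Helper60.KS

/-- density theorem with exponent `A` for real parts `≥ 1 - x1` -/
def Dens (A x1 : ℝ) : Prop := ∀ τ ε : ℝ, 1/2 ≤ τ → τ ≤ 19/20 → 0 < ε → ∃ X0 : ℝ, ∀ (X x : ℝ) (Z : Finset ℂ), X0 ≤ X →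
  0 < x → x ≤ x1 → Spaced1 Z →
  (∀ ρ ∈ Z, riemannZeta ρ = 0 ∧ 1 - x ≤ ρ.re ∧ Real.log X ^ 2 ≤ |ρ.im| ∧ |ρ.im| ≤ X ^ τ + 1) →
  (Z.card : ℝ) ≤ X ^ (A * x * τ + ε)

/-- spaced heights are few -/
theorem card_spaced {Z : Finset ℂ} {T : ℝ} (hT : 0 ≤ T) (hZ : Spaced1 Z) (h : ∀ ρ ∈ Z, |ρ.im| ≤ T) :
    (Z.card : ℝ) ≤ 2 * T + 2 := by
  have hinj : Set.InjOn (fun ρ : ℂ => ⌊ρ.im⌋) (Z : Set ℂ) := by
    intro ρ hρ ρ' hρ' he
    by_contra hne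
    have h1 := hZ ρ hρ ρ' hρ' hne
    have h2 : ⌊ρ.im⌋ = ⌊ρ'.im⌋ := he
    have h3 := Int.floor_le ρ.im
    have h4 := Int.lt_floor_add_one ρ.im
    have h5 := Int.floor_le ρ'.im
    have h6 := Int.lt_floor_add_one ρ'.im
    rw [h2] at h3 h4
    have : |ρ.im - ρ'.im| < 1 := by rw [abs_lt]; constructor <;> linarith
    linarith
  have hsub : Z.image (fun ρ : ℂ => ⌊ρ.im⌋) ⊆ Finset.Icc ⌊-T⌋ ⌊T⌋ := by
    intro i hi
    obtain ⟨ρ, hρ, rfl⟩ := Finset.mem_image.1 hi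
    obtain ⟨h1, h2⟩ := abs_le.1 (h ρ hρ)
    rw [Finset.mem_Icc]
    exact ⟨Int.floor_le_floor h1, Int.floor_le_floor h2⟩
  have h1 := Finset.card_le_card hsub
  rw [Finset.card_image_of_injOn hinj, Int.card_Icc] at h1
  have h2 : ⌊-T⌋ ≤ ⌊T⌋ := Int.floor_le_floor (by linarith)
  have h3 : ((⌊T⌋ + 1 - ⌊-T⌋).toNat : ℝ) = (⌊T⌋ : ℝ) + 1 - (⌊-T⌋ : ℝ) := by
    have : ((⌊T⌋ + 1 - ⌊-T⌋).toNat : ℤ) = ⌊T⌋ + 1 - ⌊-T⌋ := Int.toNat_of_nonneg (by omega)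
    have h4 : (((⌊T⌋ + 1 - ⌊-T⌋).toNat : ℤ) : ℝ) = ((⌊T⌋ + 1 - ⌊-T⌋ : ℤ) : ℝ) := by rw [this]
    push_cast at h4
    exact_mod_cast h4
  have h5 : (Z.card : ℝ) ≤ ((⌊T⌋ + 1 - ⌊-T⌋).toNat : ℝ) := by exact_mod_cast h1
  have h6 := Int.floor_le T
  have h7 := Int.lt_floor_add_one (-T)
  rw [h3] at h5
  linarith

/-- one class -/
theorem clsBound {A x1 τ ε0 η d : ℝ} (hA : 0 ≤ A) (hAx : A * x1 ≤ 2) (hD : Dens A x1) (hτ1 : 1/2 ≤ τ)
    (hτ2 : τ ≤ 9/10) (hε : 0 < ε0) (hη : 0 < η) (hη1 : η ≤ 1/1000) (hηε : η ≤ ε0)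
    (h1 : 50 * η ≤ (2 - A * τ) * ε0) (h2 : 50 * η ≤ 2 * x1 - τ) (hd : 0 < d) (hd1 : d ≤ η) :
    ∃ X0 : ℝ, ∀ (X x : ℝ) (Z : Finset ℂ) (c : ℂ → ℂ) (U : Finset ℝ), X0 ≤ X → ε0 ≤ x → x ≤ 1/2 →
    InStrip Z (1 - x) (1 - x + η) (X ^ (τ + 2 * d) + 1) → Spaced1 Z →
    (∀ ρ ∈ Z, riemannZeta ρ = 0 ∧ Real.log X ^ 2 ≤ |ρ.im|) →
    (∀ ρ ∈ Z, ‖c ρ‖ ≤ Real.log X ^ 2) → (∀ u ∈ U, Real.log X ≤ u ∧ u ≤ Real.log X + 1) →
    SpacedR U (1 / X ^ (τ + 2 * d)) →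
    (∀ u ∈ U, 1 / Real.log X ^ 4 ≤ ‖∑ ρ ∈ Z, c ρ * Complex.exp ((ρ - 1) * (u : ℂ))‖) →
    (U.card : ℝ) ≤ X ^ (τ - 30 * η) := by
  obtain ⟨C, hC, hms⟩ := msClass
  obtain ⟨XD, hD⟩ := hD (τ + 2 * d) η (by linarith) (by linarith) hη
  have hsm := Pool.Agent.Helper60.KC.small (Real.log (12 * C)) 14 η hη
  obtain ⟨X1, hX1⟩ := eventually_atTop.1 hsm
  refine ⟨max (max XD X1) (Real.exp 10), ?_⟩
  intro X x Z c U hX hx0 hx1 hZ1 hZ2 hZ3 hc hU1 hU2 hU3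
  have hXD : XD ≤ X := (le_max_left _ _).trans ((le_max_left _ _).trans hX)
  have hXX1 : X1 ≤ X := (le_max_right _ _).trans ((le_max_left _ _).trans hX)
  have hXe : Real.exp 10 ≤ X := (le_max_right _ _).trans hX
  have hX0 : 0 < X := (Real.exp_pos _).trans_le hXe
  have hl10 : 10 ≤ Real.log X := by
    rw [Real.le_log_iff_exp_le hX0]; exact hXe
  have hX8 : 8 ≤ X := by
    have := Real.add_one_le_exp (10 : ℝ)
    linarith
  have hX1' : 1 < X := by linarith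
  set l := Real.log X with hl
  have hl0 : 0 < l := by linarith
  have hlog : 12 * C * l ^ 14 ≤ X ^ η := by
    have := hX1 X hXX1
    rw [← Real.log_le_log_iff (by positivity) (by positivity), Real.log_mul (by positivity) (by positivity),
      Real.log_pow, Real.log_rpow hX0]
    simpa using this
  set T0 := X ^ (τ + 2 * d) with hT0
  have hT0p : 1 ≤ T0 := Real.one_le_rpow hX1'.le (by linarith)
  set T := T0 + 1 with hT
  have hT2 : T ≤ 2 * T0 := by linarith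
  have key := hms X T (1 - x) (1 - x + η) (l ^ 2) (1 / l ^ 4) Z c U hX8 (by linarith) (by linarith) (by linarith)
    (by linarith) (by positivity) (by positivity) hZ1 hZ2 hc hU1 (by
      intro u hu u' hu' hne
      refine lt_of_lt_of_le ?_ (hU2 u hu u' hu' hne)
      apply one_div_lt_one_div_of_lt (by linarith)
      linarith) hU3
  -- the number of zeros
  have hr : ∃ rr : ℝ, (Z.card : ℝ) ≤ 6 * X ^ rr ∧ rr + τ + 2 * d - 2 * x ≤ τ - 33 * η := by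
    rcases le_or_gt x x1 with hxx | hxx
    · refine ⟨A * x * (τ + 2 * d) + η, ?_, ?_⟩
      · have h3 := hD X x Z hXD (by linarith) hxx hZ2 (fun ρ hρ => ⟨(hZ3 ρ hρ).1, (hZ1 ρ hρ).1, (hZ3 ρ hρ).2,
          (hZ1 ρ hρ).2.2⟩)
        have h4 : 0 < X ^ (A * x * (τ + 2 * d) + η) := by positivity
        linarith
      · have h5 : A * x ≤ 2 := (mul_le_mul_of_nonneg_left hxx hA).trans hAx
        have h6 : 0 ≤ 2 - A * τ := by
          by_contra hcon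
          push Not at hcon
          have := mul_neg_of_neg_of_pos hcon hε
          linarith
        have h7 : (2 - A * τ) * ε0 ≤ (2 - A * τ) * x := mul_le_mul_of_nonneg_left hx0 h6
        have h8 : A * x * (2 * d) ≤ 2 * (2 * d) := mul_le_mul_of_nonneg_right h5 (by linarith)
        nlinarith
    · refine ⟨τ + 2 * d, ?_, by linarith⟩
      have h3 := card_spaced (by linarith) hZ2 (fun ρ hρ => (hZ1 ρ hρ).2.2)
      linarith
  obtain ⟨rr, hr1, hr2⟩ := hr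
  have e1 : (U.card : ℝ) ≤ C * l ^ 14 * Z.card * T * X ^ (2 * (1 - x + η - 1)) := by
    have h3 : (U.card : ℝ) * (1 / l ^ 4) ^ 2 * l ^ 8 = U.card := by field_simp
    calc (U.card : ℝ) = (U.card : ℝ) * (1 / l ^ 4) ^ 2 * l ^ 8 := h3.symm
      _ ≤ (C * (l ^ 2) ^ 2 * Z.card * l ^ 2 * T * X ^ (2 * (1 - x + η - 1))) * l ^ 8 :=
          mul_le_mul_of_nonneg_right key (by positivity)
      _ = _ := by ring
  calc (U.card : ℝ) ≤ C * l ^ 14 * Z.card * T * X ^ (2 * (1 - x + η - 1)) := e1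
    _ ≤ C * l ^ 14 * (6 * X ^ rr) * (2 * X ^ (τ + 2 * d)) * X ^ (2 * (1 - x + η - 1)) := by gcongr
    _ = (12 * C * l ^ 14) * (X ^ rr * X ^ (τ + 2 * d) * X ^ (2 * (1 - x + η - 1))) := by ring
    _ ≤ X ^ η * (X ^ rr * X ^ (τ + 2 * d) * X ^ (2 * (1 - x + η - 1))) := by gcongr
    _ = X ^ (η + (rr + (τ + 2 * d) + 2 * (1 - x + η - 1))) := by
        rw [← Real.rpow_add hX0, ← Real.rpow_add hX0, ← Real.rpow_add hX0]
    _ ≤ X ^ (τ - 30 * η) := Real.rpow_le_rpow_of_exponent_le hX1'.le (by linarith)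

end Pool.Agent.Helper1.KF
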