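import Pool.Agent.Helper1.KF.Main
import Pool.Agent.Helper29.KD.Coll
import Pool.Agent.Helper26.KC.F11

/-!
# F2 and class 3, from a density theorem
-/

set_option autoImplicit false
open Filter Topology
open scoped Classical

namespace Pool.Agent.Helper1.KF

open Pool.Agent.Helper60.KS
open Pool.Agent.Helper29.KD (CountEx countEx_of_countW)

/-- class 3: for every `b` with `1/4 < b`, `1/(2(1-b)) < 1/2 - w1`: at most `X^(1/2-b)` cells are without numbers
`q m`, `m` prime of size `X^b` -/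
theorem countEx_of_dens {A x1 w1 b : ℝ} (hA : 0 ≤ A) (hAx : A * x1 ≤ 2) (hD : Dens A x1)
    (hw1 : -(33/100) ≤ w1) (h1 : A * (1/2 - w1) < 2) (h2 : 1/2 - w1 < 2 * x1)
    (hb1 : 1/4 < b) (hb2 : b < 1/2) (hb : 1 < (1 - b) * (1 - 2 * w1)) :
    CountEx (fun k => ⌊b * (k : ℝ)⌋₊) (1/2 - b) := by
  have hb0 : 0 < 1 - b := by linarith
  set τb := 1 / (2 * (1 - b)) with hτb
  have hτb1 : (1 - b) * τb = 1/2 := by rw [hτb]; field_simp
  have hτb2 : τb < 1/2 - w1 := by
    by_contra hcon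
    push Not at hcon
    have h3 : (1 - b) * (1/2 - w1) ≤ (1 - b) * τb := mul_le_mul_of_nonneg_left hcon hb0.le
    linarith
  have hτb3 : 1/2 < τb := by
    by_contra hcon
    push Not at hcon
    have h3 : (1 - b) * τb ≤ (1 - b) * (1/2) := mul_le_mul_of_nonneg_left hcon hb0.le
    linarith
  obtain ⟨η, hη, hη1, H⟩ := countW_uniform (η1 := min ((1/2 - w1 - τb) / 10) (τb / 20)) hA hAx hD hw1 h1 h2
    (lt_min (by linarith) (by linarith))
  have hηa : η ≤ (1/2 - w1 - τb) / 10 := hη1.trans (min_le_left _ _)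
  have hηb : η ≤ τb / 20 := hη1.trans (min_le_right _ _)
  have hH := H (1/2 - τb - 10 * η) (by linarith) (by linarith)
  have e1 : 1/2 - (1/2 - τb - 10 * η) - 20 * η = τb - 10 * η := by ring
  rw [e1] at hH
  have hpos : 0 < (1 - b) * (10 * η) := by positivity
  have hτb4 : τb < 83/100 := by linarith
  have hηc : 10 * η ≤ 83/100 - τb := by linarith
  refine countEx_of_countW hb1 hb2 ?_ ?_ ?_ ?_ ?_ hH
  · linarith
  · linarith
  · have : (1 - b) * (1/2 + (1/2 - τb - 10 * η)) = (1 - b) - (1 - b) * τb - (1 - b) * (10 * η) := by ring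
    rw [this, hτb1]; linarith
  · have : (1 - b) * (τb - 10 * η) = (1 - b) * τb - (1 - b) * (10 * η) := by ring
    rw [this, hτb1]; linarith
  · have : (1 - b) * (τb - 10 * η) = (1 - b) * τb - (1 - b) * (10 * η) := by ring
    rw [this, hτb1]; linarith

/-- class 3 with `b = 0.3958` -/
theorem class3_dens (hD : Dens 2.4 0.414) : CountEx (fun k => ⌊(0.3958 : ℝ) * (k : ℝ)⌋₊) 0.1042 := by
  have h := countEx_of_dens (A := 2.4) (x1 := 0.414) (w1 := -0.3278) (b := 0.3958) (by norm_num) (by norm_num) hD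
    (by norm_num) (by norm_num) (by norm_num) (by norm_num) (by norm_num) (by norm_num)
  norm_num at h ⊢
  exact h

/-- Huxley's density theorem (helper26) in the form used here -/
theorem dens : Dens 2.4 0.45 := by
  intro τ ε hτ1 hτ2 hε
  set ε' := min ε 1 with hε'
  have hε'0 : 0 < ε' := lt_min hε (by norm_num)
  have hε'1 : ε' ≤ 1 := min_le_right _ _
  have hε'2 : ε' ≤ ε := min_le_left _ _
  obtain ⟨T0, hT0⟩ := Pool.Agent.Helper26.KC.huxleyS (ε' / 4) (by positivity)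
  have hev : ∀ᶠ X : ℝ in atTop, T0 ≤ X ^ τ + 1 ∧ X ^ τ + 1 ≤ X ∧ 8 ≤ X ^ (ε' / 2) ∧ 1 ≤ X := by
    have e1 : ∀ᶠ X : ℝ in atTop, T0 ≤ X ^ τ :=
      (tendsto_rpow_atTop (by linarith : (0:ℝ) < τ)).eventually (eventually_ge_atTop T0)
    have e2 : ∀ᶠ X : ℝ in atTop, 2 ≤ X ^ (1 - τ) :=
      (tendsto_rpow_atTop (by linarith : (0:ℝ) < 1 - τ)).eventually (eventually_ge_atTop 2)
    have e3 : ∀ᶠ X : ℝ in atTop, 8 ≤ X ^ (ε' / 2) :=
      (tendsto_rpow_atTop (by positivity : (0:ℝ) < ε' / 2)).eventually (eventually_ge_atTop 8)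
    filter_upwards [e1, e2, e3, eventually_ge_atTop 1] with X h1 h2 h3 h4
    refine ⟨by linarith, ?_, h3, h4⟩
    have hX : 0 < X := by linarith
    have h5 : X = X ^ τ * X ^ (1 - τ) := by rw [← Real.rpow_add hX]; norm_num
    have h6 : 1 ≤ X ^ τ := Real.one_le_rpow h4 (by linarith)
    have h7 : X ^ τ * 2 ≤ X ^ τ * X ^ (1 - τ) := mul_le_mul_of_nonneg_left h2 (by positivity)
    linarith
  obtain ⟨X0, hX0⟩ := eventually_atTop.1 hev
  refine ⟨X0, fun X x Z hX hx0 hx1 hS hZ => ?_⟩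
  obtain ⟨h1, h2, h3, h4⟩ := hX0 X hX
  have hXp : 0 < X := by linarith
  have h6 : 1 ≤ X ^ τ := Real.one_le_rpow h4 (by linarith)
  set T := X ^ τ + 1 with hT
  have hT1 : 1 ≤ T := by linarith
  have hlog : Real.log T ≤ Real.log X := Real.log_le_log (by linarith) h2
  have hlog0 : 0 ≤ Real.log T := Real.log_nonneg hT1
  have hH := hT0 T x h1 hx0 hx1 Z hS (fun ρ hρ => by
    obtain ⟨a, b, c, e⟩ := hZ ρ hρ
    refine ⟨a, b, le_trans ?_ c, e⟩
    exact pow_le_pow_left₀ hlog0 hlog 2)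
  refine hH.trans ?_
  have h7 : T ≤ 2 * X ^ τ := by linarith
  have h8 : 0 ≤ 2.4 * x + ε' / 4 := by positivity
  have h9 : 2.4 * x + ε' / 4 ≤ 3 := by norm_num at hx1 ⊢; linarith
  calc T ^ (2.4 * x + ε' / 4) ≤ (2 * X ^ τ) ^ (2.4 * x + ε' / 4) := Real.rpow_le_rpow (by linarith) h7 h8
    _ = 2 ^ (2.4 * x + ε' / 4) * X ^ (τ * (2.4 * x + ε' / 4)) := by
        rw [Real.mul_rpow (by norm_num) (by positivity), ← Real.rpow_mul hXp.le]
    _ ≤ 8 * X ^ (τ * (2.4 * x + ε' / 4)) := by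
        apply mul_le_mul_of_nonneg_right _ (by positivity)
        calc (2:ℝ) ^ (2.4 * x + ε' / 4) ≤ 2 ^ (3:ℝ) := Real.rpow_le_rpow_of_exponent_le (by norm_num) h9
          _ = 8 := by norm_num
    _ ≤ X ^ (ε' / 2) * X ^ (τ * (2.4 * x + ε' / 4)) := by gcongr
    _ = X ^ (ε' / 2 + τ * (2.4 * x + ε' / 4)) := by rw [← Real.rpow_add hXp]
    _ ≤ X ^ (2.4 * x * τ + ε) := by
        apply Real.rpow_le_rpow_of_exponent_le h4
        have : τ * (ε' / 4) ≤ 1 * (ε' / 4) := mul_le_mul_of_nonneg_right (by linarith) (by positivity)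
        nlinarith

/-- **almost all cells** contain the right order of primes, for all cell lengths `X^(1/2 + w - d)`,
`w ≥ -0.33`, unconditionally -/
theorem almost_all {η1 : ℝ} (hη1 : 0 < η1) :
    ∃ η : ℝ, 0 < η ∧ η ≤ η1 ∧ ∀ w : ℝ, -0.33 ≤ w → w ≤ 0 → CountW w (1/2 - w - 20 * η) :=
  countW_uniform (by norm_num) (by norm_num) dens (by norm_num) (by norm_num) (by norm_num) hη1

/-- class 3, unconditionally: for `1/4 < b < 0.3975` at most `X^(1/2-b)` cells of length `X^(1/2-d)` are without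
numbers `q m`, `m` prime of size `X^b` -/
theorem class3_gen {b : ℝ} (hb1 : 1/4 < b) (hb2 : b < 0.3975) : CountEx (fun k => ⌊b * (k : ℝ)⌋₊) (1/2 - b) := by
  norm_num at hb2
  refine countEx_of_dens (A := 2.4) (x1 := 0.45) (w1 := -0.33) (by norm_num) (by norm_num) dens
    (by norm_num) (by norm_num) (by norm_num) hb1 (by linarith) (by norm_num; linarith)

/-- class 3 with `b = 0.3958` -/
theorem class3 : CountEx (fun k => ⌊(0.3958 : ℝ) * (k : ℝ)⌋₊) 0.1042 := by
  have h := class3_gen (b := 0.3958) (by norm_num) (by norm_num)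
  norm_num at h ⊢
  exact h

end Pool.Agent.Helper1.KF
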