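import Pool.Agent.Helper1.KC.SLemma
import Pool.Agent.Helper9.KC.DiscMV
import Pool.Agent.Helper65.KC.MeanValue

/-!
# F2: mean square over the cells for one class of zeros
-/

set_option autoImplicit false
open Filter Topology
open scoped Classical ComplexConjugate

namespace Pool.Agent.Helper1.KF

open Pool.Agent.Helper60.KS
open Pool.Agent.Helper1.KC (eta norm_eta_le eta_mul step1)

/-- mean square: `|U| v^2 ≤ C c0^2 |Z| (log X)^2 T X^(2(b'-1))` -/
theorem msClass : ∃ C : ℝ, 0 < C ∧ ∀ (X T b b' c0 v : ℝ) (Z : Finset ℂ) (c : ℂ → ℂ) (U : Finset ℝ),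
    8 ≤ X → 1 ≤ T → b ≤ b' → b' ≤ b + 1 → b' ≤ 1 → 0 ≤ c0 → 0 ≤ v → InStrip Z b b' T → Spaced1 Z →
    (∀ ρ ∈ Z, ‖c ρ‖ ≤ c0) → (∀ u ∈ U, Real.log X ≤ u ∧ u ≤ Real.log X + 1) →
    (∀ u ∈ U, ∀ u' ∈ U, u ≠ u' → 1 / T < |u - u'|) →
    (∀ u ∈ U, v ≤ ‖∑ ρ ∈ Z, c ρ * Complex.exp ((ρ - 1) * (u : ℂ))‖) →
    (U.card : ℝ) * v ^ 2 ≤ C * c0 ^ 2 * Z.card * Real.log X ^ 2 * T * X ^ (2 * (b' - 1)) := by
  obtain ⟨C1, hC1, h1⟩ := Pool.Agent.Helper9.KC.discMV Pool.Agent.Helper65.KC.meanValue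
  refine ⟨C1 * Real.exp 4, by positivity, ?_⟩
  intro X T b b' c0 v Z c U hX hT hb hb' hb1 hc0 hv hZ1 hZ2 hc hU1 hU2 hU3
  have hX0 : 0 < X := by linarith
  have hlX : 2 ≤ Real.log X := Pool.Agent.Helper1.KC.log8.trans (Real.log_le_log (by norm_num) hX)
  set l := Real.log X with hl
  set r : ℝ := 1 / l with hr
  have hr0 : 0 < r := by positivity
  have hr2 : r ≤ 1 / 2 := one_div_le_one_div_of_le (by norm_num) hlX
  have hrl : r * l = 1 := by rw [hr]; field_simp
  set e : ℝ → ℂ := fun u => eta (∑ ρ ∈ Z, c ρ * Complex.exp ((ρ - 1) * (u : ℂ))) with he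
  have s1 := step1 Z c U c0 v hv hc hU3
  have key := h1 ℝ U (fun u => e u * Complex.exp (-(u : ℂ))) (fun u => u)
    T b b' r ((U.card : ℝ) * (Real.exp 4 * X ^ (2 * (b' - 1)))) Z hT hr0 hr2 hb hb' hZ1 hZ2 (by
      intro σ hσ1 hσ2
      have hterm : ∀ u ∈ U, (∑ u' ∈ U, if |u - u'| ≤ 1 / T then ‖e u * Complex.exp (-(u : ℂ))‖ *
          ‖e u' * Complex.exp (-(u' : ℂ))‖ * Real.exp (σ * (u + u')) else 0) ≤
          Real.exp 4 * X ^ (2 * (b' - 1)) := by
        intro u hu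
        rw [Finset.sum_eq_single u]
        · rw [if_pos (by simp; linarith)]
          have e1 : ‖e u * Complex.exp (-(u : ℂ))‖ ≤ Real.exp (-u) := by
            rw [norm_mul, Complex.norm_exp]
            have : ‖e u‖ ≤ 1 := norm_eta_le _
            calc ‖e u‖ * Real.exp (-(u : ℂ)).re ≤ 1 * Real.exp (-(u : ℂ)).re :=
                  mul_le_mul_of_nonneg_right this (Real.exp_pos _).le
              _ = Real.exp (-u) := by simp
          calc ‖e u * Complex.exp (-(u : ℂ))‖ * ‖e u * Complex.exp (-(u : ℂ))‖ * Real.exp (σ * (u + u)) ≤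
                Real.exp (-u) * Real.exp (-u) * Real.exp (σ * (u + u)) := by gcongr
            _ = Real.exp (2 * (σ - 1) * u) := by
                rw [← Real.exp_add, ← Real.exp_add]; congr 1; ring
            _ ≤ Real.exp (4 + 2 * (b' - 1) * l) := by
                apply Real.exp_le_exp.2
                obtain ⟨hu1, hu2⟩ := hU1 u hu
                have f1 : (σ - 1) * u ≤ (b' + r - 1) * u := by
                  apply mul_le_mul_of_nonneg_right _ (by linarith); linarith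
                have f2 : (b' - 1) * u ≤ (b' - 1) * l := by
                  apply mul_le_mul_of_nonpos_left hu1; linarith
                have f3 : r * u ≤ r * (l + 1) := mul_le_mul_of_nonneg_left hu2 hr0.le
                nlinarith
            _ = Real.exp 4 * X ^ (2 * (b' - 1)) := by
                rw [Real.exp_add, Real.rpow_def_of_pos hX0]
                congr 2
                ring
        · intro u' hu' hne
          rw [if_neg]
          exact not_le.2 (hU2 u hu u' hu' (Ne.symm hne))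
        · intro h; exact absurd hu h
      refine (Finset.sum_le_sum hterm).trans ?_
      rw [Finset.sum_const, nsmul_eq_mul])
  have hBeq : ∀ ρ : ℂ, ∑ u ∈ U, e u * Complex.exp ((ρ - 1) * (u : ℂ)) =
      ∑ u ∈ U, (e u * Complex.exp (-(u : ℂ))) * Complex.exp ((u : ℂ) * ρ) := by
    intro ρ
    refine Finset.sum_congr rfl (fun u _ => ?_)
    have : Complex.exp ((ρ - 1) * (u : ℂ)) = Complex.exp (-(u : ℂ)) * Complex.exp ((u : ℂ) * ρ) := by
      rw [← Complex.exp_add]; congr 1; ring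
    rw [this]; ring
  have hr2' : 1 / r ^ 2 = l ^ 2 := by rw [hr]; field_simp
  rcases Nat.eq_zero_or_pos U.card with hU0 | hU0
  · rw [hU0]
    simp only [Nat.cast_zero, zero_mul]
    positivity
  have hUp : (0 : ℝ) < U.card := by exact_mod_cast hU0
  have s2 : ((U.card : ℝ) * v) ^ 2 ≤ c0 ^ 2 * (Z.card * (C1 * l ^ 2 * T *
      ((U.card : ℝ) * (Real.exp 4 * X ^ (2 * (b' - 1)))))) := by
    refine s1.trans ?_
    have : ∑ ρ ∈ Z, ‖∑ u ∈ U, e u * Complex.exp ((ρ - 1) * (u : ℂ))‖ ^ 2 ≤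
        C1 * l ^ 2 * T * ((U.card : ℝ) * (Real.exp 4 * X ^ (2 * (b' - 1)))) := by
      calc ∑ ρ ∈ Z, ‖∑ u ∈ U, e u * Complex.exp ((ρ - 1) * (u : ℂ))‖ ^ 2 =
            ∑ ρ ∈ Z, ‖∑ u ∈ U, (e u * Complex.exp (-(u : ℂ))) * Complex.exp ((u : ℂ) * ρ)‖ ^ 2 := by
            refine Finset.sum_congr rfl (fun ρ _ => ?_)
            rw [hBeq]
        _ ≤ C1 / r ^ 2 * T * ((U.card : ℝ) * (Real.exp 4 * X ^ (2 * (b' - 1)))) := key
        _ = _ := by rw [div_eq_mul_one_div, hr2']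
    gcongr
  have s3 : (U.card : ℝ) * ((U.card : ℝ) * v ^ 2) ≤ (U.card : ℝ) * (C1 * Real.exp 4 * c0 ^ 2 * Z.card * l ^ 2 * T *
      X ^ (2 * (b' - 1))) := by
    calc (U.card : ℝ) * ((U.card : ℝ) * v ^ 2) = ((U.card : ℝ) * v) ^ 2 := by ring
      _ ≤ _ := s2
      _ = _ := by ring
  exact le_of_mul_le_mul_left s3 hUp

end Pool.Agent.Helper1.KF
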